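import Pool.Agent.H7.GT.Stmts

set_option autoImplicit false

open Finset

namespace Pool.GT7

open Pool.Agent.H23.KT Pool.Agent.H46.KW Pool.KQ

theorem CZC_thm (hA : CZAStmt) (hB : CZBStmt) (hK : CCKStmt) : CZCStmt := by
  intro p w r hP
  obtain ⟨η, e₀, hη0, hη2, he0, hee, hB1⟩ := hB p w r hP
  have hpp : (0 : ℝ) < 1 / (2 * ((p : ℝ) + 3)) := by positivity
  refine ⟨min η (1 / (2 * ((p : ℝ) + 3))), e₀, lt_min hη0 hpp, (min_le_left _ _).trans hη2, he0,
    hee, fun C => ?_⟩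
  obtain ⟨a1, hB2⟩ := hB1 C
  obtain ⟨a2, hA2⟩ := hA p w r hP C
  refine ⟨max a1 a2, ?_⟩
  intro a ha V _ G e W P U hS he he1 hCB z hz
  have ha1 : a1 ≤ a := (le_max_left _ _).trans ha
  have ha2 : a2 ≤ a := (le_max_right _ _).trans ha
  have hK1 := (hK G p w r a e C W P U hP hS he (he1.trans hee) hCB z hz).2.2.2
  have hT : 0 ≤ TZ G p r (un P) z := by
    refine le_trans ?_ hK1
    positivity
  have hM : 0 ≤ (((p + 2).choose (w + 1) : ℕ) : ℝ) * (a : ℝ) ^ (w + 1) := by positivity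
  by_cases h : ∃ k0, ∀ l, l ≠ k0 → (a : ℝ) / 32 ≤ ((nb G (P l) z).card : ℝ)
  · obtain ⟨k0, hk⟩ := h
    refine (hB2 a ha1 G e W P U hS he he1 hCB z hz k0 hk).trans ?_
    apply mul_le_mul_of_nonneg_right _ hT
    apply mul_le_mul_of_nonneg_right _ hM
    linarith [min_le_left η (1 / (2 * ((p : ℝ) + 3)))]
  · push Not at h
    obtain ⟨l, _, hl⟩ := h 0
    obtain ⟨l', hl', hl2⟩ := h l
    refine (hA2 a ha2 G e W P U hS he (he1.trans hee) hCB z hz l l' (Ne.symm hl') hl.le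
      hl2.le).trans ?_
    apply mul_le_mul_of_nonneg_right _ hT
    apply mul_le_mul_of_nonneg_right _ hM
    linarith [min_le_right η (1 / (2 * ((p : ℝ) + 3)))]

end Pool.GT7
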